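import Pool.Agent.Helper84.OB.Stmts

set_option autoImplicit false

universe u

open Set Pool.Agent.Helper84.BT
open scoped Matroid

namespace Pool.Agent.Helper9.OB

open Pool.Agent.Helper84.OB

theorem st_HY : ST_HY.{u} := by
  intro α _ M Y C w hY hC hwY hwC hO
  have hYE : Y ⊆ M.E := hY.subset_ground
  have hwE : w ∈ M.E := M.closure_subset_ground _ hwC
  have hYc : M.closure Y = Y := hY.closure
  -- a subset of largest size
  have hfin : {H : Set α | H ⊆ C ∧ w ∉ M.closure (H ∪ Y)}.Finite := Set.toFinite _
  have hne : {H : Set α | H ⊆ C ∧ w ∉ M.closure (H ∪ Y)}.Nonempty := by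
    refine ⟨∅, empty_subset _, ?_⟩
    rw [empty_union, hYc]
    exact hwY
  obtain ⟨H, ⟨hHC, hwH⟩, hmax⟩ := Set.exists_max_image _ (fun H : Set α => H.ncard) hfin hne
  have hHE : H ⊆ M.E := hHC.trans hC
  -- `H` is independent over `Y`
  have hind : ∀ x ∈ H, x ∉ M.closure ((H \ {x}) ∪ Y) := by
    intro x hx h
    exact hwH (hO H hHC x hx h)
  have hS : ∀ S : Set α, S.Finite → S ⊆ H → rk M (S ∪ Y) = rk M Y + S.ncard := by
    intro S hSf
    induction S, hSf using Set.Finite.induction_on with
    | empty => intro _; simp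
    | @insert a S haS hSf ih =>
      intro hsub
      have haH : a ∈ H := hsub (mem_insert _ _)
      have hSH : S ⊆ H := (subset_insert _ _).trans hsub
      have h1 := ih hSH
      have h2 : a ∉ M.closure (S ∪ Y) := by
        intro h
        apply hind a haH
        refine M.closure_subset_closure ?_ h
        apply union_subset_union_left
        intro s hs
        exact ⟨hSH hs, by rintro rfl; exact haS hs⟩
      have h3 := rk_insert_of_notMem M (hHE haH) h2
      rw [Set.ncard_insert_of_notMem haS hSf, insert_union, h3, h1]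
      ring
  have hrk : rk M (H ∪ Y) = rk M Y + H.ncard := hS H (Set.toFinite H) (Subset.refl _)
  -- adding `w`
  have hrw : rk M (insert w (H ∪ Y)) = rk M (H ∪ Y) + 1 := rk_insert_of_notMem M hwE hwH
  have hle : rk M (insert w (H ∪ Y)) ≤ rk M (C ∪ Y) := by
    rw [← rk_closure M (C ∪ Y)]
    apply rk_mono
    apply insert_subset hwC
    exact (union_subset_union_left _ hHC).trans
      (M.subset_closure (C ∪ Y) (union_subset hC hYE))
  -- the elements of `C \ H`
  have hc : ∀ c ∈ C \ H, w ∈ M.closure (insert c (H ∪ Y)) := by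
    intro c hc
    by_contra h
    have h1 := hmax (insert c H) ⟨insert_subset hc.1 hHC, by rwa [insert_union]⟩
    have h2 := Set.ncard_insert_of_notMem hc.2 (Set.toFinite H)
    simp only [h2] at h1
    omega
  have hex : ∀ c ∈ C \ H, c ∈ M.closure (insert w (H ∪ Y)) := by
    intro c hc'
    exact (M.closure_exchange ⟨hc c hc', hwH⟩).1
  have hge : rk M (C ∪ Y) ≤ rk M (insert w (H ∪ Y)) := by
    rw [← rk_closure M (insert w (H ∪ Y))]
    apply rk_mono
    have hsub : insert w (H ∪ Y) ⊆ M.closure (insert w (H ∪ Y)) :=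
      M.subset_closure _ (insert_subset hwE (union_subset hHE hYE))
    rintro x (hx | hx)
    · by_cases hxH : x ∈ H
      · exact hsub (mem_insert_of_mem _ (Or.inl hxH))
      · exact hex x ⟨hx, hxH⟩
    · exact hsub (mem_insert_of_mem _ (Or.inr hx))
  refine ⟨H, hHC, hrk, by omega, ?_⟩
  intro c hc'
  apply le_antisymm
  · apply rk_mono
    refine insert_subset (Set.mem_union_left Y hc'.1) ?_
    exact union_subset_union_left _ hHC
  · refine hge.trans ?_
    rw [← rk_closure M (insert c (H ∪ Y))]
    apply rk_mono
    apply insert_subset (hc c hc')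
    exact (subset_insert _ _).trans
      (M.subset_closure _ (insert_subset (hC hc'.1) (union_subset hHE hYE)))

end Pool.Agent.Helper9.OB
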